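import Pool.Agent.Q44.SA.Stm

/-!
# Project SA of helper44, job SA-IV
-/

set_option autoImplicit false

namespace Pool.Agent.Q210.SA.Iv

open MvPolynomial Pool.Agent.Q44.SA

theorem aeval_zero_of_hom {K F : Type} [Field K] [Field F] [Algebra K F] {n d : ℕ} (hd : 0 < d)
    {f : MvPolynomial (Fin n) K} (hf : f.IsHomogeneous d) : aeval (fun _ => (0 : F)) f = 0 := by
  have h1 : aeval (fun _ => (0 : F)) f = algebraMap K F (constantCoeff f) := aeval_zero' f
  rw [h1, constantCoeff_eq, hf.coeff_eq_zero (by simpa using hd.ne), map_zero]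

/-- Job SA-IV of project SA. -/
theorem main : S_inv := by
  intro K _ n I hI _ φ ψ h l l' a b
  have hvan : vanishingIdeal K (zeroLocus (AlgebraicClosure K) I) = I := IsPrime.vanishingIdeal_zeroLocus I
  refine hvan.le ?_
  rw [mem_vanishingIdeal_iff]
  intro x hx
  rw [mem_zeroLocus_iff] at hx
  simp only [map_sub, map_mul, aeval_X, aeval_bind₁]
  by_cases hx0 : x = 0
  · rw [hx0]; simp
  · have hPx : Pt (algebraMap K (AlgebraicClosure K)) I x := ⟨hx0, fun f hf => hx f hf⟩
    obtain ⟨y, hy⟩ : ∃ y : Fin n → AlgebraicClosure K, y = fun i => aeval x (φ.F l i) := ⟨_, rfl⟩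
    rw [← hy]
    by_cases hy0 : ∃ i, aeval x (φ.F l i) ≠ 0
    · have hrel : φ.Rel (algebraMap K (AlgebraicClosure K)) x y :=
        ⟨l, hy0, 1, one_ne_zero, fun i => by rw [hy, one_mul]; rfl⟩
      obtain ⟨l'', _, c, _, hc⟩ := h x y hPx hrel
      have hyI : ∀ f ∈ I, aeval y f = 0 := by
        intro f hf
        have h1 := hx _ (φ.into l f hf)
        rw [aeval_bind₁, ← hy] at h1
        exact h1
      have hag := hyI _ (ψ.agree l' l'' a b)
      rw [map_sub, map_mul, map_mul] at hag
      have hca : x a = c * aeval y (ψ.F l'' a) := hc a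
      have hcb : x b = c * aeval y (ψ.F l'' b) := hc b
      rw [hca, hcb]
      linear_combination (-c) * hag
    · push Not at hy0
      have hy1 : y = fun _ => 0 := by rw [hy]; funext i; exact hy0 i
      rw [hy1, aeval_zero_of_hom (ψ.pos l') (ψ.hom l' b), aeval_zero_of_hom (ψ.pos l') (ψ.hom l' a)]
      ring

end Pool.Agent.Q210.SA.Iv
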